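import Pool.Agent.N64.AF.SA2
import Pool.Agent.Y112.SR.Lin

/-!
# P2: ranks and idempotents (project AF of helper64; helper216)
-/

set_option autoImplicit false
set_option linter.unusedSectionVars false
set_option linter.unusedSimpArgs false
set_option backward.isDefEq.respectTransparency false
set_option backward.defeqAttrib.useBackward true

open CategoryTheory Limits MonoidalCategory Module
open Pool.Agent.Y112.SR Pool.Agent.Y112.KD
open Pool.Agent.Y116.MT (tr)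

namespace Pool.Agent.N64.AF

universe v u w t

namespace P2aux

open Functor.LaxMonoidal Functor.OplaxMonoidal

section

variable {C : Type u} [Category.{v} C] [Preadditive C] [MonoidalCategory C] [SymmetricCategory C]
  [RightRigidCategory C] {K : Type w} [Field K] (R : SuperRealisation C K)

lemma zigzag' (N : C) : R.H.obj Nᘁ ◁ coe R N ≫ (α_ _ _ _).inv ≫ evb R N ▷ R.H.obj Nᘁ =
    (ρ_ (R.H.obj Nᘁ)).hom ≫ (λ_ (R.H.obj Nᘁ)).inv := by
  rw [← cancel_mono (λ_ (R.H.obj Nᘁ)).hom]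
  simp only [Category.assoc, Iso.inv_hom_id, Category.comp_id]
  have h3 : (λ_ (R.H.obj Nᘁ)).hom = ε R.H ▷ R.H.obj Nᘁ ≫ μ R.H (𝟙_ C) Nᘁ ≫ R.H.map (λ_ Nᘁ).hom :=
    Functor.LaxMonoidal.left_unitality R.H Nᘁ
  rw [h3, coe, evb]
  simp only [comp_whiskerRight, MonoidalCategory.whiskerLeft_comp, Category.assoc]
  have h4 : η R.H ▷ R.H.obj Nᘁ ≫ ε R.H ▷ R.H.obj Nᘁ = 𝟙 _ := by
    rw [← comp_whiskerRight, Functor.Monoidal.η_ε, id_whiskerRight]
  rw [reassoc_of% h4, μ_natural_left_assoc]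
  have h5 := Functor.LaxMonoidal.associativity_inv R.H Nᘁ N Nᘁ
  have h6 : (R.H.obj Nᘁ ◁ δ R.H N Nᘁ) ≫ (R.H.obj Nᘁ ◁ μ R.H N Nᘁ) = 𝟙 _ := by
    rw [← MonoidalCategory.whiskerLeft_comp, Functor.Monoidal.δ_μ, MonoidalCategory.whiskerLeft_id]
  rw [← reassoc_of% h5, reassoc_of% h6, μ_natural_right_assoc, ← Functor.map_comp,
    ← Functor.map_comp, ← Functor.map_comp]
  have h7 : Nᘁ ◁ η_ N Nᘁ ≫ (α_ Nᘁ N Nᘁ).inv ≫ ε_ N Nᘁ ▷ Nᘁ ≫ (λ_ Nᘁ).hom = (ρ_ Nᘁ).hom := by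
    rw [ExactPairing.coevaluation_evaluation_assoc]
    simp
  rw [h7]
  exact (Functor.LaxMonoidal.right_unitality R.H Nᘁ).symm

/-- the realisations of an object and its dual are in duality -/
@[instance_reducible]
noncomputable def pairing (N : C) : ExactPairing (R.H.obj N) (R.H.obj Nᘁ) where
  coevaluation' := coe R N
  evaluation' := evb R N
  coevaluation_evaluation' := zigzag' R N
  evaluation_coevaluation' := zigzag R N

lemma slide {Y : C} (e : Y ⟶ Y) : coe R Y ≫ R.H.obj Y ◁ R.H.map (eᘁ) =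
    coe R Y ≫ R.H.map e ▷ R.H.obj Yᘁ := by
  have h1 : η_ Y Yᘁ ≫ Y ◁ (eᘁ) = η_ Y Yᘁ ≫ e ▷ Yᘁ := coevaluation_comp_rightAdjointMate e
  rw [coe]
  simp only [Category.assoc]
  rw [Functor.OplaxMonoidal.δ_natural_right, Functor.OplaxMonoidal.δ_natural_left,
    ← Functor.map_comp_assoc, ← Functor.map_comp_assoc, h1]

lemma trace_mate {Y : C} (e : Y ⟶ Y) : LinearMap.trace K (R.H.obj Yᘁ) (R.H.map (eᘁ)).hom =
    LinearMap.trace K (R.H.obj Y) (R.H.map e).hom := by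
  have h0 := R.finite Y
  have h0' := R.finite Yᘁ
  let _ : ExactPairing (R.H.obj Y) (R.H.obj Yᘁ) := pairing R Y
  let _ : ExactPairing (R.H.obj Yᘁ) (R.H.obj Y) :=
    BraidedCategory.exactPairing_swap (R.H.obj Y) (R.H.obj Yᘁ)
  have e1 := Pool.Agent.Y116.MT.vec_trace (coe R Y) (evb R Y) (zigzag R Y) (R.H.map e)
  have e2 := Pool.Agent.Y116.MT.vec_trace (η_ (R.H.obj Yᘁ) (R.H.obj Y)) (ε_ (R.H.obj Yᘁ) (R.H.obj Y))
    (ExactPairing.evaluation_coevaluation (R.H.obj Yᘁ) (R.H.obj Y)) (R.H.map (eᘁ))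
  rw [← e1, ← e2]
  have h2 : η_ (R.H.obj Yᘁ) (R.H.obj Y) = coe R Y ≫ (β_ (R.H.obj Yᘁ) (R.H.obj Y)).inv := rfl
  have h3 : ε_ (R.H.obj Yᘁ) (R.H.obj Y) = (β_ (R.H.obj Y) (R.H.obj Yᘁ)).hom ≫ evb R Y := rfl
  have h4 : (β_ (R.H.obj Yᘁ) (R.H.obj Y)).inv ≫ R.H.map (eᘁ) ▷ R.H.obj Y =
      R.H.obj Y ◁ R.H.map (eᘁ) ≫ (β_ (R.H.obj Yᘁ) (R.H.obj Y)).inv := by
    rw [Iso.inv_comp_eq, ← Category.assoc, Iso.eq_comp_inv]
    exact BraidedCategory.braiding_naturality_left _ _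
  rw [h2, h3]
  simp only [Category.assoc]
  rw [reassoc_of% h4, Iso.inv_hom_id_assoc, reassoc_of% (slide R e)]

end

section

variable {C : Type u} [Category.{v} C] [Preadditive C] [MonoidalCategory C]
  [MonoidalPreadditive C]

lemma sub_right {X Y : C} (a b : X ⟶ Y) (Z : C) : (a - b) ▷ Z = a ▷ Z - b ▷ Z := by
  rw [eq_sub_iff_add_eq, ← MonoidalPreadditive.add_whiskerRight, sub_add_cancel]

lemma sub_left {X Y : C} (a b : X ⟶ Y) (Z : C) : Z ◁ (a - b) = Z ◁ a - Z ◁ b := by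
  rw [eq_sub_iff_add_eq, ← MonoidalPreadditive.whiskerLeft_add, sub_add_cancel]

end

end P2aux

variable {C : Type u} [Category.{v} C] [Preadditive C] [MonoidalCategory C]
  [MonoidalPreadditive C] [SymmetricCategory C] [RightRigidCategory C]
  {Λ : Type t} [Field Λ] [CharZero Λ] [Linear Λ C] [MonoidalLinear Λ C]
  {K : Type w} [Field K] [Algebra Λ K] {R : SuperRealisation C K}

/-- P9 -/
theorem isRk_id (R : SuperRealisation C K) (Y : C) : IsRk R (𝟙 Y) (bt R Y) := by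
  have h0 := R.finite Y
  unfold IsRk bt
  rw [CategoryTheory.Functor.map_id, ModuleCat.hom_id, LinearMap.trace_id]

/-- P10 -/
theorem isRk_tensor {Y Z : C} {e : Y ⟶ Y} {f : Z ⟶ Z} {r s : ℕ} (hr : IsRk R e r)
    (hs : IsRk R f s) : IsRk R (e ⊗ₘ f) (r * s) := by
  have h0 := R.finite Y
  have h0' := R.finite Z
  have h0'' := R.finite (Y ⊗ Z)
  unfold IsRk at *
  have h3 : Module.Finite K ↑(R.H.obj Y ⊗ R.H.obj Z) :=
    inferInstanceAs (Module.Finite K (TensorProduct K (R.H.obj Y) (R.H.obj Z)))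
  have h1 : R.H.map (e ⊗ₘ f) = (Functor.OplaxMonoidal.δ R.H Y Z ≫ (R.H.map e ⊗ₘ R.H.map f)) ≫
      Functor.LaxMonoidal.μ R.H Y Z := by
    rw [Functor.Monoidal.map_tensor, Category.assoc]
  rw [h1, ModuleCat.hom_comp]
  have e2 := LinearMap.trace_comp_comm' (R := K)
    (Functor.OplaxMonoidal.δ R.H Y Z ≫ (R.H.map e ⊗ₘ R.H.map f)).hom
    (Functor.LaxMonoidal.μ R.H Y Z).hom
  refine e2.trans ?_
  rw [← ModuleCat.hom_comp, ← Category.assoc, Functor.Monoidal.μ_δ, Category.id_comp]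
  have h4 : LinearMap.trace K (TensorProduct K (R.H.obj Y) (R.H.obj Z))
      (TensorProduct.map (R.H.map e).hom (R.H.map f).hom) = (r : K) * s := by
    rw [LinearMap.trace_tensorProduct', hr, hs]
  push_cast
  exact h4

/-- P11 -/
theorem isRk_mate {Y : C} {e : Y ⟶ Y} {r : ℕ} (hr : IsRk R e r) : IsRk R (eᘁ) r := by
  unfold IsRk at *
  rw [P2aux.trace_mate, hr]

/-- P12 -/
theorem isRk_compl {Y : C} {e : Y ⟶ Y} {r s : ℕ} (hr : IsRk R e r) (h : r + s = bt R Y) :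
    IsRk R (𝟙 Y - e) s := by
  have h0 := R.finite Y
  have h1 := isRk_id R Y
  unfold IsRk at *
  rw [CategoryTheory.Functor.map_sub, ModuleCat.hom_sub, map_sub, h1, hr, ← h]
  push_cast
  ring

/-- P13 -/
theorem isRk_congr {Y Y' : C} (i : Y ≅ Y') {e : Y ⟶ Y} {e' : Y' ⟶ Y'}
    (h : e ≫ i.hom = i.hom ≫ e') {r : ℕ} (hr : IsRk R e r) : IsRk R e' r := by
  have h0 := R.finite Y
  have h0' := R.finite Y'
  unfold IsRk at *
  have h1 : e' = i.inv ≫ (e ≫ i.hom) := by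
    rw [h, Iso.inv_hom_id_assoc]
  rw [h1, Functor.map_comp, ModuleCat.hom_comp]
  refine (LinearMap.trace_comp_comm' (R := K) (R.H.map i.inv).hom
    (R.H.map (e ≫ i.hom)).hom).trans ?_
  rw [← ModuleCat.hom_comp, ← Functor.map_comp, Category.assoc, Iso.hom_inv_id, Category.comp_id,
    hr]

namespace P2aux

lemma zero (Y Z : C) : NumTriv (0 : Y ⟶ Z) := fun g => by rw [zero_comp, tr_zero']

lemma add {Y Z : C} {a b : Y ⟶ Z} (ha : NumTriv a) (hb : NumTriv b) : NumTriv (a + b) :=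
  fun g => by rw [Preadditive.add_comp, tr_add', ha g, hb g, add_zero]

end P2aux

/-- P14 -/
theorem numIdem_compl {Y : C} {e : Y ⟶ Y} (he : NumIdem e) : NumIdem (𝟙 Y - e) := by
  have h1 : (𝟙 Y - e) ≫ (𝟙 Y - e) - (𝟙 Y - e) = e ≫ e - e := by
    rw [Preadditive.sub_comp, Preadditive.comp_sub, Preadditive.comp_sub, Category.id_comp,
      Category.id_comp, Category.comp_id]
    abel
  unfold NumIdem
  rw [h1]
  exact he

/-- P15 -/
theorem numIdem_tensor (hR : IsReal Λ R) {Y Z : C} {e : Y ⟶ Y} {f : Z ⟶ Z} (he : NumIdem e)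
    (hf : NumIdem f) : NumIdem (e ⊗ₘ f) := by
  have h1 : (e ⊗ₘ f) ≫ (e ⊗ₘ f) - (e ⊗ₘ f) =
      ((e ≫ e - e) ▷ Z) ≫ (Y ◁ (f ≫ f)) + (e ▷ Z) ≫ (Y ◁ (f ≫ f - f)) := by
    rw [P2aux.sub_right, P2aux.sub_left,
      Preadditive.sub_comp, Preadditive.comp_sub, MonoidalCategory.tensorHom_comp_tensorHom,
      MonoidalCategory.tensorHom_def (e ≫ e), MonoidalCategory.tensorHom_def e f]
    abel
  unfold NumIdem
  rw [h1]
  refine P2aux.add ?_ ?_
  · have h2 := NumTriv.comp hR (NumTriv.whiskerRight hR he Z) (𝟙 _) (Y ◁ (f ≫ f))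
    rwa [Category.id_comp] at h2
  · have h2 := NumTriv.comp hR (NumTriv.whiskerLeft hR hf Y) (e ▷ Z) (𝟙 _)
    rwa [Category.comp_id] at h2

/-- P16 -/
theorem numIdem_mate (hR : IsReal Λ R) {Y : C} {e : Y ⟶ Y} (he : NumIdem e) :
    NumIdem (eᘁ) := by
  have h1 : (eᘁ) ≫ (eᘁ) - (eᘁ) = ((e ≫ e - e)ᘁ) := by
    rw [← comp_rightAdjointMate]
    simp only [rightAdjointMate, P2aux.sub_right,
      P2aux.sub_left, Preadditive.sub_comp, Preadditive.comp_sub]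
  unfold NumIdem
  rw [h1]
  have h2 := NumTriv.whiskerLeft hR (NumTriv.whiskerRight hR he Yᘁ) Yᘁ
  have h3 := NumTriv.comp hR h2 ((ρ_ Yᘁ).inv ≫ Yᘁ ◁ η_ Y Yᘁ)
    ((α_ _ _ _).inv ≫ ε_ Y Yᘁ ▷ Yᘁ ≫ (λ_ _).hom)
  simpa only [rightAdjointMate, Category.assoc] using h3

/-- P17 -/
theorem numIdem_id (Y : C) : NumIdem (𝟙 Y) := by
  unfold NumIdem
  rw [Category.comp_id, sub_self]
  exact P2aux.zero _ _

/-- P18 -/
theorem numIdem_congr (hR : IsReal Λ R) {Y Y' : C} (i : Y ≅ Y') {e : Y ⟶ Y} {e' : Y' ⟶ Y'}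
    (h : e ≫ i.hom = i.hom ≫ e') (he : NumIdem e) : NumIdem e' := by
  have h1 : e' = i.inv ≫ e ≫ i.hom := by
    rw [h, Iso.inv_hom_id_assoc]
  have h2 : e' ≫ e' - e' = i.inv ≫ (e ≫ e - e) ≫ i.hom := by
    rw [h1]
    simp only [Category.assoc, Iso.hom_inv_id_assoc, Preadditive.sub_comp, Preadditive.comp_sub]
  unfold NumIdem
  rw [h2]
  exact NumTriv.comp hR he _ _

end Pool.Agent.N64.AF
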